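import Pool.Agent.Helper73.LL.Goals
import Pool.Agent.Helper47.W.OnceCount

/-! Packet LL-CUT (helper73, MP_75608d): the switching count for closed trajectories which are
not tree-like. -/

namespace Pool.Agent.Helper53.LL

open Equiv Pool.Agent.Helper6.W Pool.Agent.Helper73.LL Pool.Agent.Helper47.W

variable {n : ℕ}

/-! ### The code -/

/-- the sequence `e` admits the code `(k, th, x, r, w, v)` -/
def CS (T : ℕ) (e : ℕ → Fin n) (k th x r w v : ℕ) : Prop :=
  th < T ∧ (∀ t < th, e t ≠ e th) ∧ x < T ∧ e x = e th ∧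
  ((k = 0 ∧ r < T ∧ x < r ∧ (∀ t, x < t → t < r → e t ≠ e th) ∧ e r = e th ∧
      (Even x ↔ Even th) ∧ (Even r ↔ Even th)) ∨
   (k = 1 ∧ r < T ∧ x < r ∧ (∀ t, x < t → t < r → e t ≠ e th) ∧ e r = e th ∧
      ¬ (Even x ↔ Even th) ∧ ¬ (Even r ↔ Even th)) ∨
   (k = 2 ∧ (Even x ↔ Even th) ∧ (∀ t, x < t → t < T → e t ≠ e th)) ∨
   (k = 3 ∧ (Even x ↔ Even th) ∧ r < T ∧ x < r ∧ (∀ t, x < t → t < r → e t ≠ e th) ∧
      e r ≠ e th ∧ w < T ∧ e w = e r ∧ (∀ t < w, e t ≠ e th)) ∨
   (k = 4 ∧ (Even x ↔ Even th) ∧ r < T ∧ x < r ∧ (∀ t, x < t → t < r → e t ≠ e th) ∧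
      e r ≠ e th ∧ w < T ∧ e w = e r ∧ v < w ∧ e v = e th ∧ ¬ (Even v ↔ Even th) ∧
      (∀ t, v < t → t < w → e t ≠ e th)))

theorem occ_succ (e : ℕ → Fin n) (a : Fin n) (t : ℕ) :
    occ e a 0 (t + 1) = occ e a 0 t + if e t = a then 1 else 0 := by
  unfold occ
  rw [← Finset.insert_Ico_right_eq_Ico_add_one (Nat.zero_le t), Finset.filter_insert]
  split_ifs with h
  · rw [Finset.card_insert_of_notMem]
    simp
  · rfl

theorem occ_add (e : ℕ → Fin n) (a : Fin n) {u v : ℕ} (h : u ≤ v) :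
    occ e a 0 v = occ e a 0 u + occ e a u v := by
  unfold occ
  rw [← Finset.card_union_of_disjoint]
  · congr 1
    rw [← Finset.filter_union, Finset.Ico_union_Ico_eq_Ico (Nat.zero_le u) h]
  · rw [Finset.disjoint_left]
    intro t h1 h2
    simp only [Finset.mem_filter, Finset.mem_Ico] at h1 h2
    omega

theorem occ_zero (e : ℕ → Fin n) (a : Fin n) : occ e a 0 0 = 0 := by
  simp [occ]

/-- the last occurrence -/
theorem exists_last (e : ℕ → Fin n) (a : Fin n) (r : ℕ) (h : 0 < occ e a 0 r) :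
    ∃ x < r, e x = a ∧ (∀ t, x < t → t < r → e t ≠ a) ∧ occ e a 0 r = occ e a 0 x + 1 := by
  induction r with
  | zero => rw [occ_zero] at h; omega
  | succ r ih =>
    rw [occ_succ] at h ⊢
    by_cases he : e r = a
    · exact ⟨r, by omega, he, fun t h1 h2 => by omega, by simp [he]⟩
    · simp only [he, if_false, add_zero] at h ⊢
      obtain ⟨x, h1, h2, h3, h4⟩ := ih h
      refine ⟨x, by omega, h2, fun t h5 h6 => ?_, h4⟩
      rcases Nat.lt_succ_iff_lt_or_eq.1 h6 with h7 | h7
      · exact h3 t h5 h7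
      · rw [h7]; exact he

theorem none_of_occ_zero (e : ℕ → Fin n) (a : Fin n) (r : ℕ) (h : occ e a 0 r = 0) :
    ∀ t < r, e t ≠ a := by
  intro t ht he
  unfold occ at h
  rw [Finset.card_eq_zero, Finset.filter_eq_empty_iff] at h
  exact h (Finset.mem_Ico.2 ⟨Nat.zero_le t, ht⟩) he

/-- parity of the occurrences if consecutive ones have different parities -/
theorem parity_occ (T : ℕ) (e : ℕ → Fin n) (a : Fin n) (th : ℕ) (h1 : ∀ t < th, e t ≠ a)
    (hth : e th = a)
    (halt : ∀ x r, x < r → r < T → e x = a → e r = a → (∀ t, x < t → t < r → e t ≠ a) →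
      ¬ (Even x ↔ Even r)) :
    ∀ x, x < T → e x = a → (Even (occ e a 0 x) ↔ (Even x ↔ Even th)) := by
  intro x
  induction x using Nat.strong_induction_on with
  | _ x ih =>
    intro hx hxa
    by_cases h0 : occ e a 0 x = 0
    · have h2 := none_of_occ_zero e a x h0
      have h3 : x = th := by
        rcases lt_trichotomy x th with h | h | h
        · exact absurd hxa (h1 x h)
        · exact h
        · exact absurd hth (h2 th h)
      rw [h0, h3]
      simp
    · obtain ⟨z, hz1, hz2, hz3, hz4⟩ := exists_last e a x (Nat.pos_of_ne_zero h0)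
      have h4 := ih z hz1 (by omega) hz2
      have h5 := halt z x hz1 hx hz2 hxa hz3
      rw [hz4, Nat.even_add_one, h4]
      by_cases p1 : Even x <;> by_cases p2 : Even z <;> by_cases p3 : Even th <;>
        simp [p1, p2, p3] at h5 ⊢

theorem exists_code (T : ℕ) (e : ℕ → Fin n) (h : ¬ TL e T) :
    ∃ k th x r w v : ℕ, k < 5 ∧ th < T ∧ x < T ∧ r < T ∧ w < T ∧ v < T ∧
      CS T e k th x r w v := by
  classical
  -- reduction to a label
  have key : ∀ a : Fin n, (∃ t < T, e t = a) →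
      ((¬ Even (occ e a 0 T)) ∨ ∃ u v, u < v ∧ v < T ∧ e u = e v ∧ a ≠ e u ∧
        ¬ Even (occ e a u v)) →
      ∃ k th x r w v : ℕ, k < 5 ∧ th < T ∧ x < T ∧ r < T ∧ w < T ∧ v < T ∧
        CS T e k th x r w v := by
    intro a hex hcase
    have hT : 0 < T := by obtain ⟨t, ht, _⟩ := hex; omega
    have hex' : ∃ t, e t = a := by obtain ⟨t, _, ht⟩ := hex; exact ⟨t, ht⟩
    set th := Nat.find hex' with hthdef
    have hth : e th = a := Nat.find_spec hex'
    have hmin : ∀ t < th, e t ≠ a := fun t ht => Nat.find_min hex' ht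
    have hthT : th < T := by
      obtain ⟨t, ht, h2⟩ := hex
      by_contra hcon
      exact hmin t (by omega) h2
    by_cases halt : ∀ x r, x < r → r < T → e x = a → e r = a →
        (∀ t, x < t → t < r → e t ≠ a) → ¬ (Even x ↔ Even r)
    · have hpar := parity_occ T e a th hmin hth halt
      rcases hcase with hodd | ⟨u, v, huv, hvT, heuv, hane, hodd⟩
      · have hpos : 0 < occ e a 0 T := by
          rcases Nat.eq_zero_or_pos (occ e a 0 T) with h0 | h0
          · rw [h0] at hodd; simp at hodd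
          · exact h0
        obtain ⟨x, hx1, hx2, hx3, hx4⟩ := exists_last e a T hpos
        have h5 := hpar x hx1 hx2
        rw [hx4, Nat.even_add_one, not_not] at hodd
        refine ⟨2, th, x, 0, 0, 0, by norm_num, hthT, hx1, hT, hT, hT, hthT, ?_, hx1, ?_, ?_⟩
        · rw [hth]; exact hmin
        · rw [hth]; exact hx2
        · right; right; left
          rw [hth]
          exact ⟨rfl, h5.1 hodd, hx3⟩
      · -- the other case
        have hsum := occ_add e a huv.le
        have main : ∀ w r : ℕ, w < T → r < T → e w = e r → e r ≠ a → Even (occ e a 0 w) →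
            ¬ Even (occ e a 0 r) →
            ∃ k th x r w v : ℕ, k < 5 ∧ th < T ∧ x < T ∧ r < T ∧ w < T ∧ v < T ∧
              CS T e k th x r w v := by
          intro w r hw hr hwr hra hwe hro
          have hpos : 0 < occ e a 0 r := by
            rcases Nat.eq_zero_or_pos (occ e a 0 r) with h0 | h0
            · rw [h0] at hro; simp at hro
            · exact h0
          obtain ⟨x, hx1, hx2, hx3, hx4⟩ := exists_last e a r hpos
          have h5 := hpar x (by omega) hx2
          rw [hx4, Nat.even_add_one, not_not] at hro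
          by_cases h0 : occ e a 0 w = 0
          · refine ⟨3, th, x, r, w, 0, by norm_num, hthT, by omega, hr, hw, hT, hthT, ?_,
              by omega, ?_, ?_⟩
            · rw [hth]; exact hmin
            · rw [hth]; exact hx2
            · right; right; right; left
              rw [hth]
              exact ⟨rfl, h5.1 hro, hr, hx1, hx3, hra, hw, hwr, none_of_occ_zero e a w h0⟩
          · obtain ⟨v', hv1, hv2, hv3, hv4⟩ := exists_last e a w (Nat.pos_of_ne_zero h0)
            have h6 := hpar v' (by omega) hv2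
            rw [hv4, Nat.even_add_one, h6] at hwe
            refine ⟨4, th, x, r, w, v', by norm_num, hthT, by omega, hr, hw, by omega, hthT, ?_,
              by omega, ?_, ?_⟩
            · rw [hth]; exact hmin
            · rw [hth]; exact hx2
            · right; right; right; right
              rw [hth]
              exact ⟨rfl, h5.1 hro, hr, hx1, hx3, hra, hw, hwr, hv1, hv2, hwe, hv3⟩
        by_cases hu : Even (occ e a 0 u)
        · refine main u v (by omega) hvT heuv (by rw [← heuv]; exact hane.symm) hu ?_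
          rw [hsum, Nat.even_add]
          tauto
        · refine main v u hvT (by omega) heuv.symm hane.symm ?_ hu
          rw [hsum, Nat.even_add]
          tauto
    · push Not at halt
      obtain ⟨x, r, hxr, hrT, hx, hr, hno, hpar⟩ := halt
      by_cases hxt : Even x ↔ Even th
      · refine ⟨0, th, x, r, 0, 0, by norm_num, hthT, by omega, hrT, hT, hT, hthT, ?_,
          by omega, ?_, ?_⟩
        · rw [hth]; exact hmin
        · rw [hth]; exact hx
        · left
          rw [hth]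
          exact ⟨rfl, hrT, hxr, hno, hr, hxt, hpar.symm.trans hxt⟩
      · refine ⟨1, th, x, r, 0, 0, by norm_num, hthT, by omega, hrT, hT, hT, hthT, ?_,
          by omega, ?_, ?_⟩
        · rw [hth]; exact hmin
        · rw [hth]; exact hx
        · right; left
          rw [hth]
          exact ⟨rfl, hrT, hxr, hno, hr, hxt, fun h => hxt (hpar.trans h)⟩
  by_cases hall : ∀ c, Even (occ e c 0 T)
  · have hmid : ¬ ∀ u v, u < v → v < T → e u = e v → ∀ c, c ≠ e u → Even (occ e c u v) :=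
      fun hm => h ⟨hall, hm⟩
    push Not at hmid
    obtain ⟨u, v, huv, hv, heq, c, hc, hodd⟩ := hmid
    refine key c ?_ (Or.inr ⟨u, v, huv, hv, heq, hc, ?_⟩)
    · by_contra hno
      push Not at hno
      apply hodd
      have : occ e c u v = 0 := by
        unfold occ
        rw [Finset.card_eq_zero, Finset.filter_eq_empty_iff]
        intro t ht
        have := Finset.mem_Ico.1 ht
        exact hno t (by omega)
      rw [this]; simp
    · exact hodd
  · push Not at hall
    obtain ⟨c, hc⟩ := hall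
    refine key c ?_ (Or.inl ?_)
    · by_contra hno
      push Not at hno
      apply hc
      have : occ e c 0 T = 0 := by
        unfold occ
        rw [Finset.card_eq_zero, Finset.filter_eq_empty_iff]
        intro t ht
        have := Finset.mem_Ico.1 ht
        exact hno t (by omega)
      rw [this]; simp
    · exact hc

/-! ### Injectivity of the switching -/

section inj

variable {Z : ℕ → Perm (Fin n)} {T : ℕ} {p : Fin n} {y1 y2 : Perm (Fin n)} {a1 a2 c1 c2 : Fin n}

theorem fwd_step (he : y1 * swap a1 c1 = y2 * swap a2 c2)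
    (hn1 : ∀ t < T, lab y1 Z t p ≠ c1) (hn2 : ∀ t < T, lab y2 Z t p ≠ c2) {t : ℕ} (ht : t < T)
    (hK : pos y1 Z t p = pos y2 Z t p) (h1 : lab y1 Z t p ≠ a1) (h2 : lab y2 Z t p ≠ a2) :
    lab y1 Z t p = lab y2 Z t p ∧ pos y1 Z (t + 1) p = pos y2 Z (t + 1) p := by
  have b1 := hn1 t ht
  have b2 := hn2 t ht
  rw [lab_eq] at h1 h2 b1 b2
  have l1 := lbl_swap y1 a1 c1 t _ h1 b1
  have l2 := lbl_swap y2 a2 c2 t _ h2 b2
  have k1 := cr_swap y1 a1 c1 t _ h1 b1
  have k2 := cr_swap y2 a2 c2 t _ h2 b2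
  constructor
  · rw [lab_eq, lab_eq, ← l1, ← l2, he, hK]
  · rw [pos_succ, pos_succ, ← k1, ← k2, he, hK]

theorem fwd (he : y1 * swap a1 c1 = y2 * swap a2 c2)
    (hn1 : ∀ t < T, lab y1 Z t p ≠ c1) (hn2 : ∀ t < T, lab y2 Z t p ≠ c2) {s : ℕ}
    (hK : pos y1 Z s p = pos y2 Z s p) : ∀ k, s + k ≤ T →
    (∀ t, s ≤ t → t < s + k → lab y1 Z t p ≠ a1) → (∀ t, s ≤ t → t < s + k → lab y2 Z t p ≠ a2) →
    pos y1 Z (s + k) p = pos y2 Z (s + k) p := by
  intro k
  induction k with
  | zero => intro _ _ _; simpa using hK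
  | succ k ih =>
    intro hk h1 h2
    have h3 := ih (by omega) (fun t a b => h1 t a (by omega)) (fun t a b => h2 t a (by omega))
    exact (fwd_step he hn1 hn2 (by omega) h3 (h1 _ (by omega) (by omega))
      (h2 _ (by omega) (by omega))).2

theorem bwd_step (he : y1 * swap a1 c1 = y2 * swap a2 c2)
    (hn1 : ∀ t < T, lab y1 Z t p ≠ c1) (hn2 : ∀ t < T, lab y2 Z t p ≠ c2) {t : ℕ} (ht : t < T)
    (hK : pos y1 Z (t + 1) p = pos y2 Z (t + 1) p) (h1 : lab y1 Z t p ≠ a1)
    (h2 : lab y2 Z t p ≠ a2) : pos y1 Z t p = pos y2 Z t p := by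
  have b1 := hn1 t ht
  have b2 := hn2 t ht
  rw [lab_eq] at h1 h2 b1 b2
  have k1 := cr_swap y1 a1 c1 t _ h1 b1
  have k2 := cr_swap y2 a2 c2 t _ h2 b2
  rw [pos_succ, pos_succ] at hK
  have e4 := (Z t).injective hK
  rw [← k1, ← k2, ← he] at e4
  exact (cr (y1 * swap a1 c1) t).injective e4

theorem bwd (he : y1 * swap a1 c1 = y2 * swap a2 c2)
    (hn1 : ∀ t < T, lab y1 Z t p ≠ c1) (hn2 : ∀ t < T, lab y2 Z t p ≠ c2) {s : ℕ} (hs : s ≤ T)
    (hK : pos y1 Z s p = pos y2 Z s p) : ∀ k, k ≤ s →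
    (∀ t, s - k ≤ t → t < s → lab y1 Z t p ≠ a1) → (∀ t, s - k ≤ t → t < s → lab y2 Z t p ≠ a2) →
    pos y1 Z (s - k) p = pos y2 Z (s - k) p := by
  intro k
  induction k with
  | zero => intro _ _ _; simpa using hK
  | succ k ih =>
    intro hk h1 h2
    have h3 := ih (by omega) (fun t a b => h1 t (by omega) b) (fun t a b => h2 t (by omega) b)
    have h4 : s - k = (s - (k + 1)) + 1 := by omega
    rw [h4] at h3
    exact bwd_step he hn1 hn2 (by omega) h3 (h1 _ (by omega) (by omega))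
      (h2 _ (by omega) (by omega))

/-- forward from `s` to `t` -/
theorem fwd' (he : y1 * swap a1 c1 = y2 * swap a2 c2)
    (hn1 : ∀ t < T, lab y1 Z t p ≠ c1) (hn2 : ∀ t < T, lab y2 Z t p ≠ c2) {s r : ℕ}
    (hsr : s ≤ r) (hr : r ≤ T) (hK : pos y1 Z s p = pos y2 Z s p)
    (h1 : ∀ t, s ≤ t → t < r → lab y1 Z t p ≠ a1) (h2 : ∀ t, s ≤ t → t < r → lab y2 Z t p ≠ a2) :
    pos y1 Z r p = pos y2 Z r p := by
  have h3 : s + (r - s) = r := by omega
  have h4 := fwd he hn1 hn2 hK (r - s) (by omega) (fun t a b => h1 t a (by omega))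
    (fun t a b => h2 t a (by omega))
  rwa [h3] at h4

/-- backward from `r` to `s` -/
theorem bwd' (he : y1 * swap a1 c1 = y2 * swap a2 c2)
    (hn1 : ∀ t < T, lab y1 Z t p ≠ c1) (hn2 : ∀ t < T, lab y2 Z t p ≠ c2) {s r : ℕ}
    (hsr : s ≤ r) (hr : r ≤ T) (hK : pos y1 Z r p = pos y2 Z r p)
    (h1 : ∀ t, s ≤ t → t < r → lab y1 Z t p ≠ a1) (h2 : ∀ t, s ≤ t → t < r → lab y2 Z t p ≠ a2) :
    pos y1 Z s p = pos y2 Z s p := by
  have h3 : r - (r - s) = s := by omega
  have h4 := bwd he hn1 hn2 hr hK (r - s) (by omega) (fun t a b => h1 t (by omega) b)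
    (fun t a b => h2 t (by omega) b)
  rwa [h3] at h4

/-- equal labels give equal positions -/
theorem pos_of_lab (he : y1 * swap a1 c1 = y2 * swap a2 c2)
    (hn1 : ∀ t < T, lab y1 Z t p ≠ c1) (hn2 : ∀ t < T, lab y2 Z t p ≠ c2) {t : ℕ} (ht : t < T)
    (hl : lab y1 Z t p = lab y2 Z t p) (h1 : lab y1 Z t p ≠ a1) (h2 : lab y2 Z t p ≠ a2) :
    pos y1 Z t p = pos y2 Z t p := by
  have b1 := hn1 t ht
  have b2 := hn2 t ht
  by_cases hpar : Even t
  · have e1 : lab y1 Z t p = pos y1 Z t p := by rw [lab_eq]; simp [lbl, hpar]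
    have e2 : lab y2 Z t p = pos y2 Z t p := by rw [lab_eq]; simp [lbl, hpar]
    rw [← e1, ← e2, hl]
  · have e1 : y1 (lab y1 Z t p) = pos y1 Z t p := by rw [lab_eq]; simp [lbl, hpar]
    have e2 : y2 (lab y2 Z t p) = pos y2 Z t p := by rw [lab_eq]; simp [lbl, hpar]
    have f1 := congrArg (fun g : Perm (Fin n) => g (lab y1 Z t p)) he
    simp only [Perm.coe_mul, Function.comp_apply] at f1
    rw [swap_apply_of_ne_of_ne h1 b1, hl, swap_apply_of_ne_of_ne h2 b2, ← hl, e1, hl, e2] at f1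
    exact f1

end inj

/-- the endpoint of the edge of the label `a` before the crossings with the parity of `th` -/
def al (y : Perm (Fin n)) (a : Fin n) (th : ℕ) : Fin n := if Even th then a else y a

/-- the other endpoint -/
def be (y : Perm (Fin n)) (a : Fin n) (th : ℕ) : Fin n := if Even th then y a else a

theorem occ_same {y : Perm (Fin n)} {Z : ℕ → Perm (Fin n)} {p a : Fin n} {th x : ℕ}
    (hpar : Even x ↔ Even th) (hx : lab y Z x p = a) :
    pos y Z x p = al y a th ∧ pos y Z (x + 1) p = Z x (be y a th) := by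
  rw [lab_eq] at hx
  rw [pos_succ]
  unfold al be cr
  unfold lbl at hx
  by_cases h : Even x
  · have h' := hpar.1 h
    simp only [h, if_true] at hx ⊢
    simp only [h', if_true]
    rw [hx]
    exact ⟨rfl, rfl⟩
  · have h' : ¬ Even th := fun h2 => h (hpar.2 h2)
    simp only [h, if_false] at hx ⊢
    simp only [h', if_false]
    rw [hx]
    refine ⟨?_, rfl⟩
    rw [← hx]
    simp

theorem occ_diff {y : Perm (Fin n)} {Z : ℕ → Perm (Fin n)} {p a : Fin n} {th x : ℕ}
    (hpar : ¬ (Even x ↔ Even th)) (hx : lab y Z x p = a) :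
    pos y Z x p = be y a th ∧ pos y Z (x + 1) p = Z x (al y a th) := by
  rw [lab_eq] at hx
  rw [pos_succ]
  unfold al be cr
  unfold lbl at hx
  by_cases h : Even x
  · have h' : ¬ Even th := fun h2 => hpar ⟨fun _ => h2, fun _ => h⟩
    simp only [h, if_true] at hx ⊢
    simp only [h', if_false]
    rw [hx]
    exact ⟨rfl, rfl⟩
  · have h' : Even th := by
      by_contra h2
      exact hpar ⟨fun h3 => absurd h3 h, fun h3 => absurd h3 h2⟩
    simp only [h, if_false] at hx ⊢
    simp only [h', if_true]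
    rw [hx]
    refine ⟨?_, rfl⟩
    rw [← hx]
    simp

/-- the injectivity of the switching -/
theorem inj_code (Z : ℕ → Perm (Fin n)) (T : ℕ) (p : Fin n)
    (y1 y2 : Perm (Fin n)) (c1 c2 : Fin n) (k th x r w v : ℕ)
    (hc1 : pos y1 Z T p = p) (hc2 : pos y2 Z T p = p)
    (hC1 : CS T (fun t => lab y1 Z t p) k th x r w v)
    (hC2 : CS T (fun t => lab y2 Z t p) k th x r w v)
    (hn1 : ∀ t < T, lab y1 Z t p ≠ c1) (hn2 : ∀ t < T, lab y2 Z t p ≠ c2)
    (he : y1 * swap (lab y1 Z th p) c1 = y2 * swap (lab y2 Z th p) c2) :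
    y1 = y2 ∧ c1 = c2 := by
  obtain ⟨hth, hmin1, hx, hxa1, hcase1⟩ := hC1
  obtain ⟨_, hmin2, _, hxa2, hcase2⟩ := hC2
  simp only at hmin1 hmin2 hxa1 hxa2 hcase1 hcase2
  set a1 := lab y1 Z th p with ha1
  set a2 := lab y2 Z th p with ha2
  have hK0 : pos y1 Z 0 p = pos y2 Z 0 p := by simp [pos]
  have hKT : pos y1 Z T p = pos y2 Z T p := by rw [hc1, hc2]
  have hKth := fwd' he hn1 hn2 (Nat.zero_le th) hth.le hK0 (fun t _ h => hmin1 t h)
    (fun t _ h => hmin2 t h)
  have hs1 := occ_same (y := y1) (Z := Z) (p := p) (th := th) (x := th) Iff.rfl ha1.symm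
  have hs2 := occ_same (y := y2) (Z := Z) (p := p) (th := th) (x := th) Iff.rfl ha2.symm
  have hal : al y1 a1 th = al y2 a2 th := by rw [← hs1.1, ← hs2.1, hKth]
  -- a position known after `x`, of the parity of `th`
  have fin1 : (Even x ↔ Even th) → pos y1 Z (x + 1) p = pos y2 Z (x + 1) p →
      be y1 a1 th = be y2 a2 th := by
    intro hpar hK
    rw [(occ_same hpar hxa1).2, (occ_same hpar hxa2).2] at hK
    exact (Z x).injective hK
  have hbe : be y1 a1 th = be y2 a2 th := by
    rcases hcase1 with h1 | h1 | h1 | h1 | h1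
    · obtain ⟨hk, hr, hxr, hno1, hra1, hpx, hpr⟩ := h1
      rcases hcase2 with h2 | h2 | h2 | h2 | h2
      · obtain ⟨_, _, _, hno2, hra2, _, _⟩ := h2
        have hKr : pos y1 Z r p = pos y2 Z r p := by
          rw [(occ_same hpr hra1).1, (occ_same hpr hra2).1, hal]
        exact fin1 hpx (bwd' he hn1 hn2 (by omega) hr.le hKr
          (fun t h3 h4 => hno1 t (by omega) h4) (fun t h3 h4 => hno2 t (by omega) h4))
      all_goals (exfalso; have := h2.1; omega)
    · obtain ⟨hk, hr, hxr, hno1, hra1, hpx, hpr⟩ := h1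
      rcases hcase2 with h2 | h2 | h2 | h2 | h2
      · exfalso; have := h2.1; omega
      · obtain ⟨_, _, _, hno2, hra2, _, _⟩ := h2
        have hKx : pos y1 Z (x + 1) p = pos y2 Z (x + 1) p := by
          rw [(occ_diff hpx hxa1).2, (occ_diff hpx hxa2).2, hal]
        have hKr := fwd' he hn1 hn2 (by omega) hr.le hKx
          (fun t h3 h4 => hno1 t (by omega) h4) (fun t h3 h4 => hno2 t (by omega) h4)
        rw [(occ_diff hpr hra1).1, (occ_diff hpr hra2).1] at hKr
        exact hKr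
      all_goals (exfalso; have := h2.1; omega)
    · obtain ⟨hk, hpx, hno1⟩ := h1
      rcases hcase2 with h2 | h2 | h2 | h2 | h2
      · exfalso; have := h2.1; omega
      · exfalso; have := h2.1; omega
      · obtain ⟨_, _, hno2⟩ := h2
        exact fin1 hpx (bwd' he hn1 hn2 (by omega) le_rfl hKT
          (fun t h3 h4 => hno1 t (by omega) h4) (fun t h3 h4 => hno2 t (by omega) h4))
      all_goals (exfalso; have := h2.1; omega)
    · obtain ⟨hk, hpx, hr, hxr, hno1, hra1, hw, hwr1, hnw1⟩ := h1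
      rcases hcase2 with h2 | h2 | h2 | h2 | h2
      · exfalso; have := h2.1; omega
      · exfalso; have := h2.1; omega
      · exfalso; have := h2.1; omega
      · obtain ⟨_, _, _, _, hno2, hra2, _, hwr2, hnw2⟩ := h2
        have hKw := fwd' he hn1 hn2 (Nat.zero_le w) hw.le hK0 (fun t _ h => hnw1 t h)
          (fun t _ h => hnw2 t h)
        have hlw := (fwd_step he hn1 hn2 hw hKw (by rw [hwr1]; exact hra1)
          (by rw [hwr2]; exact hra2)).1
        have hKr := pos_of_lab he hn1 hn2 hr (by rw [← hwr1, ← hwr2, hlw]) hra1 hra2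
        exact fin1 hpx (bwd' he hn1 hn2 (by omega) hr.le hKr
          (fun t h3 h4 => hno1 t (by omega) h4) (fun t h3 h4 => hno2 t (by omega) h4))
      · exfalso; have := h2.1; omega
    · obtain ⟨hk, hpx, hr, hxr, hno1, hra1, hw, hwr1, hvw, hva1, hpv, hnv1⟩ := h1
      rcases hcase2 with h2 | h2 | h2 | h2 | h2
      · exfalso; have := h2.1; omega
      · exfalso; have := h2.1; omega
      · exfalso; have := h2.1; omega
      · exfalso; have := h2.1; omega
      · obtain ⟨_, _, _, _, hno2, hra2, _, hwr2, _, hva2, _, hnv2⟩ := h2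
        have hKv : pos y1 Z (v + 1) p = pos y2 Z (v + 1) p := by
          rw [(occ_diff hpv hva1).2, (occ_diff hpv hva2).2, hal]
        have hKw := fwd' he hn1 hn2 (by omega) hw.le hKv
          (fun t h3 h4 => hnv1 t (by omega) h4) (fun t h3 h4 => hnv2 t (by omega) h4)
        have hlw := (fwd_step he hn1 hn2 hw hKw (by rw [hwr1]; exact hra1)
          (by rw [hwr2]; exact hra2)).1
        have hKr := pos_of_lab he hn1 hn2 hr (by rw [← hwr1, ← hwr2, hlw]) hra1 hra2
        exact fin1 hpx (bwd' he hn1 hn2 (by omega) hr.le hKr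
          (fun t h3 h4 => hno1 t (by omega) h4) (fun t h3 h4 => hno2 t (by omega) h4))
  have hab : a1 = a2 ∧ y1 a1 = y2 a2 := by
    unfold al at hal
    unfold be at hbe
    by_cases h : Even th
    · simp only [h, if_true] at hal hbe
      exact ⟨hal, hbe⟩
    · simp only [h, if_false] at hal hbe
      exact ⟨hbe, hal⟩
  obtain ⟨hA, hB⟩ := hab
  have hc : c1 = c2 := by
    have e1 := congrArg (fun g : Perm (Fin n) => g c1) he
    simp only [Perm.coe_mul, Function.comp_apply, swap_apply_right] at e1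
    rw [hB] at e1
    have e2 := y2.injective e1
    have e3 := congrArg (swap a2 c2) e2
    rw [swap_apply_left, swap_apply_self] at e3
    exact e3.symm
  refine ⟨?_, hc⟩
  rw [hA, hc] at he
  exact mul_right_cancel he

/-! ### The count -/

theorem occ_congr {e e' : ℕ → Fin n} {T : ℕ} (h : ∀ t < T, e t = e' t) (c : Fin n) (u v : ℕ)
    (hv : v ≤ T) : occ e c u v = occ e' c u v := by
  unfold occ
  congr 1
  apply Finset.filter_congr
  intro t ht
  rw [h t (by have := Finset.mem_Ico.1 ht; omega)]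

theorem TL_congr {e e' : ℕ → Fin n} {T : ℕ} (h : ∀ t < T, e t = e' t) (hT : TL e T) :
    TL e' T := by
  refine ⟨fun c => ?_, fun u v huv hv heq c hc => ?_⟩
  · rw [← occ_congr h c 0 T le_rfl]
    exact hT.all c
  · rw [← occ_congr h c u v hv.le]
    rw [← h u (by omega), ← h v hv] at heq
    rw [← h u (by omega)] at hc
    exact hT.mid u v huv hv heq c hc

open Classical in
/-- the set counted in `S_CUT` -/
noncomputable def NS (Z : ℕ → Perm (Fin n)) (T f : ℕ) (ps : Fin f → Fin n) :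
    Finset (Perm (Fin n)) :=
  Finset.univ.filter fun y => (∀ i, pos y Z T (ps i) = ps i) ∧
      (∀ i j, i ≠ j → Apart y Z T (ps i) (ps j)) ∧ ∀ i, ¬ TL (fun t => lab y Z t (ps i)) T

/-- the set of codes -/
abbrev Code (T : ℕ) : Type := Fin 5 × Fin T × Fin T × Fin T × Fin T × Fin T

theorem code_card (T : ℕ) : Fintype.card (Code T) ≤ (T + 2) ^ 8 := by
  simp only [Code, Fintype.card_prod, Fintype.card_fin]
  have h1 : 5 ≤ (T + 2) ^ 3 := by
    calc 5 ≤ 2 ^ 3 := by norm_num
      _ ≤ (T + 2) ^ 3 := Nat.pow_le_pow_left (by omega) 3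
  have h2 : T ^ 5 ≤ (T + 2) ^ 5 := Nat.pow_le_pow_left (by omega) 5
  calc 5 * (T * (T * (T * (T * T)))) = 5 * T ^ 5 := by ring
    _ ≤ (T + 2) ^ 3 * (T + 2) ^ 5 := Nat.mul_le_mul h1 h2
    _ = (T + 2) ^ 8 := by ring

theorem step' (Z : ℕ → Perm (Fin n)) (T f : ℕ) (ps : Fin (f + 1) → Fin n) :
    (NS Z T (f + 1) ps).card * (n - (f + 1) * T) ≤
      (T + 2) ^ 8 * (NS Z T f (fun i => ps i.castSucc)).card := by
  classical
  set p := ps (Fin.last f) with hp
  have hex : ∀ y ∈ NS Z T (f + 1) ps, ∃ κ : Code T,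
      CS T (fun t => lab y Z t p) κ.1 κ.2.1 κ.2.2.1 κ.2.2.2.1 κ.2.2.2.2.1 κ.2.2.2.2.2 := by
    intro y hy
    have := (Finset.mem_filter.1 hy).2.2.2 (Fin.last f)
    obtain ⟨k, th, x, r, w, v, h1, h2, h3, h4, h5, h6, h7⟩ := exists_code T _ this
    exact ⟨(⟨k, h1⟩, ⟨th, h2⟩, ⟨x, h3⟩, ⟨r, h4⟩, ⟨w, h5⟩, ⟨v, h6⟩), h7⟩
  by_cases hT0 : T = 0
  · -- no element
    have h0 : NS Z T (f + 1) ps = ∅ := by
      rw [Finset.eq_empty_iff_forall_notMem]
      intro y hy
      obtain ⟨κ, _⟩ := hex y hy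
      have := κ.2.1.2
      omega
    rw [h0]
    simp
  have hTpos : 0 < T := Nat.pos_of_ne_zero hT0
  haveI : Nonempty (Code T) := ⟨(0, ⟨0, hTpos⟩, ⟨0, hTpos⟩, ⟨0, hTpos⟩, ⟨0, hTpos⟩, ⟨0, hTpos⟩)⟩
  choose! τ hτ using hex
  set S := (NS Z T (f + 1) ps).sigma fun y => Finset.univ \ LS Z T (f + 1) ps y with hS
  have hcard : (NS Z T (f + 1) ps).card * (n - (f + 1) * T) ≤ S.card := by
    rw [hS, Finset.card_sigma, ← smul_eq_mul]
    apply Finset.card_nsmul_le_sum
    intro y _
    have h1 := Finset.le_card_sdiff (LS Z T (f + 1) ps y) (Finset.univ : Finset (Fin n))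
    have h2 := LS_card Z T (f + 1) ps y
    rw [Finset.card_univ, Fintype.card_fin] at h1
    omega
  refine hcard.trans ?_
  have hT : Fintype.card (Code T) * (NS Z T f (fun i => ps i.castSucc)).card =
      ((NS Z T f (fun i => ps i.castSucc)) ×ˢ (Finset.univ : Finset (Code T))).card := by
    rw [Finset.card_product, Finset.card_univ, mul_comm]
  refine le_trans ?_ (Nat.mul_le_mul_right _ (code_card T))
  rw [hT]
  have hlab : ∀ s ∈ S, ∀ i : Fin (f + 1), ∀ t < T, lab s.1 Z t (ps i) ≠ s.2 := by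
    intro s hs i t ht h
    rw [hS, Finset.mem_sigma, Finset.mem_sdiff] at hs
    apply hs.2.2
    unfold LS
    rw [Finset.mem_image]
    exact ⟨(i, t), by simp [ht], h⟩
  refine Finset.card_le_card_of_injOn
    (fun s => (s.1 * swap (lab s.1 Z (τ s.1).2.1 p) s.2, τ s.1)) ?_ ?_
  · intro s hs
    have hs' := hs
    rw [Finset.mem_coe, hS, Finset.mem_sigma] at hs'
    have hy := hs'.1
    have hlt : ((τ s.1).2.1 : ℕ) < T := (τ s.1).2.1.2
    rw [Finset.mem_coe, Finset.mem_product]
    refine ⟨?_, Finset.mem_univ _⟩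
    obtain ⟨h1, h2, h3⟩ := (Finset.mem_filter.1 hy).2
    have hav : ∀ i : Fin f, ∀ t < T, lab s.1 Z t (ps i.castSucc) ≠ lab s.1 Z (τ s.1).2.1 p := by
      intro i t ht
      exact h2 i.castSucc (Fin.last f) (Fin.castSucc_lt_last i).ne t ht _ hlt
    have hP : ∀ i : Fin f, ∀ t ≤ T, pos (s.1 * swap (lab s.1 Z (τ s.1).2.1 p) s.2) Z t
        (ps i.castSucc) = pos s.1 Z t (ps i.castSucc) := fun i =>
      pos_swap s.1 Z _ _ _ T (hav i) (hlab s (Finset.mem_coe.1 hs) i.castSucc)
    have hL : ∀ i : Fin f, ∀ t < T, lab (s.1 * swap (lab s.1 Z (τ s.1).2.1 p) s.2) Z t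
        (ps i.castSucc) = lab s.1 Z t (ps i.castSucc) := fun i =>
      lab_swap s.1 Z _ _ _ T (hav i) (hlab s (Finset.mem_coe.1 hs) i.castSucc)
    unfold NS
    rw [Finset.mem_filter]
    refine ⟨Finset.mem_univ _, ?_, ?_, ?_⟩
    · intro i
      show pos (s.1 * swap (lab s.1 Z (τ s.1).2.1 p) s.2) Z T (ps i.castSucc) = ps i.castSucc
      rw [hP i T le_rfl]
      exact h1 i.castSucc
    · intro i j hij t ht t' ht'
      show lab (s.1 * swap (lab s.1 Z (τ s.1).2.1 p) s.2) Z t (ps i.castSucc) ≠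
        lab (s.1 * swap (lab s.1 Z (τ s.1).2.1 p) s.2) Z t' (ps j.castSucc)
      rw [hL i t ht, hL j t' ht']
      exact h2 i.castSucc j.castSucc (fun h => hij (Fin.castSucc_injective f h)) t ht t' ht'
    · intro i hTL
      exact h3 i.castSucc (TL_congr (fun t ht => hL i t ht) hTL)
  · intro s hs s' hs' he
    have hsm := Finset.mem_coe.1 hs
    have hsm' := Finset.mem_coe.1 hs'
    have hs1 := (Finset.mem_sigma.1 hsm).1
    have hs1' := (Finset.mem_sigma.1 hsm').1
    simp only [Prod.mk.injEq] at he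
    obtain ⟨he1, he2⟩ := he
    have hk := inj_code Z T p s.1 s'.1 s.2 s'.2 _ _ _ _ _ _
      ((Finset.mem_filter.1 hs1).2.1 (Fin.last f)) ((Finset.mem_filter.1 hs1').2.1 (Fin.last f))
      (hτ s.1 hs1) (by rw [he2]; exact hτ s'.1 hs1')
      (hlab s hsm (Fin.last f)) (hlab s' hsm' (Fin.last f))
      (by rw [he1, he2])
    exact Sigma.ext hk.1 (heq_of_eq hk.2)

theorem NS_count (Z : ℕ → Perm (Fin n)) (T : ℕ) : ∀ (f : ℕ) (ps : Fin f → Fin n),
    (NS Z T f ps).card * (n - f * T) ^ f ≤ ((T + 2) ^ 8) ^ f * n.factorial := by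
  intro f
  induction f with
  | zero =>
    intro ps
    simp only [pow_zero, mul_one, one_mul]
    refine (Finset.card_le_univ _).trans ?_
    rw [Fintype.card_perm, Fintype.card_fin]
  | succ f ih =>
    intro ps
    have h1 := step' Z T f ps
    have h2 := ih (fun i => ps i.castSucc)
    have h3 : n - (f + 1) * T ≤ n - f * T := by
      apply Nat.sub_le_sub_left
      exact Nat.mul_le_mul_right T (Nat.le_succ f)
    calc (NS Z T (f + 1) ps).card * (n - (f + 1) * T) ^ (f + 1)
        = ((NS Z T (f + 1) ps).card * (n - (f + 1) * T)) * (n - (f + 1) * T) ^ f := by ring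
      _ ≤ ((T + 2) ^ 8 * (NS Z T f (fun i => ps i.castSucc)).card) * (n - f * T) ^ f :=
          Nat.mul_le_mul h1 (Nat.pow_le_pow_left h3 f)
      _ = (T + 2) ^ 8 * ((NS Z T f (fun i => ps i.castSucc)).card * (n - f * T) ^ f) := by ring
      _ ≤ (T + 2) ^ 8 * (((T + 2) ^ 8) ^ f * n.factorial) := Nat.mul_le_mul_left _ h2
      _ = ((T + 2) ^ 8) ^ (f + 1) * n.factorial := by ring

theorem s_cut : S_CUT := by
  classical
  intro n Z T f ps
  have e : Nat.card {y : Perm (Fin n) // (∀ i, pos y Z T (ps i) = ps i) ∧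
      (∀ i j, i ≠ j → Apart y Z T (ps i) (ps j)) ∧
      ∀ i, ¬ TL (fun t => lab y Z t (ps i)) T} = (NS Z T f ps).card := by
    rw [Nat.card_eq_fintype_card, Fintype.card_subtype]
    unfold NS
    congr
  rw [e]
  exact NS_count Z T f ps

end Pool.Agent.Helper53.LL
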